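import Pool.Agent.H46.DG.Up
import Pool.Agent.H46.DG.Low

/-!
# From the windows of digits to all digits
-/

set_option autoImplicit false

namespace Pool.Agent.H46.DG

open Finset

/-- the partial sums of a function of the digits -/
noncomputable def Sd (q : ℕ) (f : ℕ → ℝ) (x m : ℕ) : ℝ := ∑ i ∈ range m, f (x / q ^ i % q)

lemma Sd_add (q : ℕ) (f : ℕ → ℝ) (x m m' : ℕ) : Sd q f x (m + m') = Sd q f x m + Sd q f (x / q ^ m) m' := by
  unfold Sd
  rw [sum_range_add]
  congr 1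
  apply sum_congr rfl
  intro i _
  rw [pow_add, Nat.div_div_eq_div_mul]

lemma Sd_abs (q : ℕ) (f : ℕ → ℝ) (hf : ∀ b, |f b| ≤ 1) (x m : ℕ) : |Sd q f x m| ≤ m := by
  unfold Sd
  refine (abs_sum_le_sum_abs _ _).trans ?_
  refine (sum_le_sum fun i _ => hf _).trans ?_
  simp

variable {q : ℕ} [NeZero q]

/-- the word of the `h` lowest digits -/
def dwd (q : ℕ) [NeZero q] (h x : ℕ) : Fin h → Fin q := fun i => ⟨x / q ^ (i : ℕ) % q, Nat.mod_lt _ (NeZero.pos q)⟩

lemma Sd_eq (f : ℕ → ℝ) (x h m : ℕ) (hm : m ≤ h) : Sd q f x m = wf (fun b : Fin q => f b) (dwd q h x) m := by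
  unfold Sd wf dwd
  rw [Fin.sum_univ_eq_sum_range (fun i : ℕ => if i < m then f (x / q ^ i % q) else 0) h, ← sum_filter]
  congr 1
  ext i
  rw [mem_filter, mem_range, mem_range]
  omega

lemma dwd_mod (h x : ℕ) : dwd q h (x % q ^ h) = dwd q h x := by
  funext i
  unfold dwd
  apply Fin.ext
  simp only
  have h1 : q ^ h = q ^ (i : ℕ) * q ^ (h - i) := by
    rw [← pow_add]
    congr 1
    omega
  rw [h1, Nat.mod_mul_right_div_self]
  have h2 : q ∣ q ^ (h - (i : ℕ)) := dvd_pow_self q (by omega)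
  exact Nat.mod_mod_of_dvd _ h2

lemma dwd_inj (h w w' : ℕ) (hw : w < q ^ h) (hw' : w' < q ^ h) (he : dwd q h w = dwd q h w') : w = w' := by
  have h1 : (finFunctionFinEquiv (m := q) (n := h)).symm ⟨w, hw⟩ = finFunctionFinEquiv.symm ⟨w', hw'⟩ := by
    funext i
    apply Fin.ext
    have := congrFun he i
    unfold dwd at this
    rw [Fin.mk.injEq] at this
    simpa using this
  have h2 := finFunctionFinEquiv.symm.injective h1
  exact Fin.mk.inj h2

open Classical in
/-- the digits in the window of `h` places from the place `t` on are nearly equidistributed -/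
def UW (q : ℕ) [NeZero q] (h t : ℕ) (I : Finset ℕ) (a : ℕ → ℕ) (η : ℝ) : Prop :=
  ∀ P : (Fin h → Fin q) → Prop, ((I.filter fun n => P (dwd q h (a n / q ^ t))).card : ℝ) ≤ (nq h P / (q : ℝ) ^ h + η) * I.card

open Classical in
lemma UW_of (h t : ℕ) (I : Finset ℕ) (a : ℕ → ℕ) (η E : ℝ)
    (hE : ∀ w < q ^ h, ((I.filter fun n => a n / q ^ t % q ^ h = w).card : ℝ) ≤ I.card / (q : ℝ) ^ h + E)
    (hη : (q : ℝ) ^ h * E ≤ η * I.card) (hE0 : 0 ≤ E) : UW q h t I a η := by
  intro P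
  have hq0 : (0 : ℝ) < (q : ℝ) ^ h := by
    have : (0 : ℝ) < q := by exact_mod_cast NeZero.pos q
    positivity
  obtain ⟨W, hW⟩ : ∃ W : Finset ℕ, W = (range (q ^ h)).filter (fun w => P (dwd q h w)) := ⟨_, rfl⟩
  have h1 : (I.filter fun n => P (dwd q h (a n / q ^ t))) ⊆ W.biUnion fun w => I.filter fun n => a n / q ^ t % q ^ h = w := by
    intro n hn
    rw [mem_filter] at hn
    rw [mem_biUnion]
    refine ⟨a n / q ^ t % q ^ h, ?_, ?_⟩
    · rw [hW, mem_filter, mem_range]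
      refine ⟨Nat.mod_lt _ (pow_pos (NeZero.pos q) h), ?_⟩
      rw [dwd_mod]
      exact hn.2
    · rw [mem_filter]
      exact ⟨hn.1, rfl⟩
  have h2 : ((I.filter fun n => P (dwd q h (a n / q ^ t))).card : ℝ) ≤ ∑ w ∈ W, ((I.filter fun n => a n / q ^ t % q ^ h = w).card : ℝ) := by
    exact_mod_cast (card_le_card h1).trans card_biUnion_le
  have h3 : ∑ w ∈ W, ((I.filter fun n => a n / q ^ t % q ^ h = w).card : ℝ) ≤ ∑ _w ∈ W, ((I.card : ℝ) / (q : ℝ) ^ h + E) := by
    apply sum_le_sum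
    intro w hw
    rw [hW, mem_filter, mem_range] at hw
    exact hE w hw.1
  rw [sum_const, nsmul_eq_mul] at h3
  have h4 : (W.card : ℝ) ≤ nq h P := by
    unfold nq
    have : W.card ≤ (univ.filter P : Finset (Fin h → Fin q)).card := by
      apply card_le_card_of_injOn (dwd q h)
      · intro w hw
        rw [mem_coe, hW, mem_filter] at hw
        rw [mem_coe, mem_filter]
        exact ⟨mem_univ _, hw.2⟩
      · intro w hw w' hw' he
        rw [mem_coe, hW, mem_filter, mem_range] at hw hw'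
        exact dwd_inj h w w' hw.1 hw'.1 he
    exact_mod_cast this
  have h5 : nq h P ≤ (q : ℝ) ^ h := by
    have := nq_le h P
    rwa [Fintype.card_fin] at this
  have hI : (0 : ℝ) ≤ (I.card : ℝ) / (q : ℝ) ^ h + E := by positivity
  calc _ ≤ (W.card : ℝ) * ((I.card : ℝ) / (q : ℝ) ^ h + E) := h2.trans h3
    _ ≤ nq h P * ((I.card : ℝ) / (q : ℝ) ^ h + E) := mul_le_mul_of_nonneg_right h4 hI
    _ = nq h P / (q : ℝ) ^ h * I.card + nq h P * E := by ring
    _ ≤ nq h P / (q : ℝ) ^ h * I.card + (q : ℝ) ^ h * E := by linarith [mul_le_mul_of_nonneg_right h5 hE0]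
    _ ≤ _ := by rw [add_mul]; linarith

end Pool.Agent.H46.DG
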