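import Pool.Agent.H46.DG.Eng

/-!
# The law of the iterated logarithm for the digits in many windows
-/

set_option autoImplicit false

namespace Pool.Agent.H46.DG

open Finset Filter Pool.Agent.H46.SW

lemma LL_mono {x y : ℝ} (hx : Real.exp 1 ≤ x) (hxy : x ≤ y) : 0 ≤ Real.log (Real.log x) ∧ Real.log (Real.log x) ≤ Real.log (Real.log y) := by
  have hx0 : 0 < x := lt_of_lt_of_le (Real.exp_pos 1) hx
  have h1 : 1 ≤ Real.log x := by
    rw [Real.le_log_iff_exp_le hx0]
    exact hx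
  exact ⟨Real.log_nonneg h1, Real.log_le_log (by linarith) (Real.log_le_log hx0 hxy)⟩

lemma exp_one_le_three : Real.exp 1 ≤ 3 := by
  have := Real.exp_one_lt_d9
  linarith

/-- all partial sums from the windows -/
lemma sum_windows (q : ℕ) (f : ℕ → ℝ) (x h J : ℕ) (lam : ℝ) (hlam : 0 ≤ lam)
    (hg : ∀ j < J, ∀ r ≤ h, |Sd q f (x / q ^ (j * h)) r| ≤ lam) (m : ℕ) (hm : m ≤ J * h) : |Sd q f x m| ≤ J * lam := by
  have h1 : ∀ i ≤ J, |Sd q f x (i * h)| ≤ i * lam := by
    intro i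
    induction i with
    | zero =>
      intro _
      simp [Sd]
    | succ i ih =>
      intro hi
      rw [Nat.succ_mul, Sd_add]
      refine (abs_add_le _ _).trans ?_
      have := ih (by omega)
      have := hg i (by omega) h le_rfl
      push_cast
      linarith
  rcases Nat.lt_or_ge m (J * h) with hlt | hge
  · have hh : 0 < h := by
      rcases Nat.eq_zero_or_pos h with h0 | h0
      · rw [h0] at hlt; omega
      · exact h0
    have hi : m / h < J := Nat.div_lt_of_lt_mul (by rw [mul_comm]; exact hlt)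
    have hr := Nat.mod_lt m hh
    have e : m = m / h * h + m % h := (Nat.div_add_mod' m h).symm
    rw [e, Sd_add]
    refine (abs_add_le _ _).trans ?_
    have g1 := h1 (m / h) hi.le
    have g2 := hg (m / h) hi (m % h) hr.le
    have g3 : ((m / h : ℕ) : ℝ) + 1 ≤ J := by exact_mod_cast hi
    nlinarith
  · have e : m = J * h := le_antisymm hm hge
    rw [e]
    exact h1 J le_rfl

variable {q : ℕ} [NeZero q]

open Classical in
theorem eng_up (f : ℕ → ℝ) (v : ℝ) (hC : Cen (fun b : Fin q => f b) v) (hf : ∀ b, |f b| ≤ 1) (s J : ℕ) (hJ : 1 ≤ J) (ε δ : ℝ)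
    (hε : 0 < ε) (hδ : 0 < δ) (hδ1 : δ ≤ 1) : ∃ (m₀ h₀ : ℕ) (η : ℝ), 3 ≤ m₀ ∧ 0 < η ∧ ∀ h, h₀ ≤ h → ∀ (I : Finset ℕ) (a : ℕ → ℕ),
      (∀ j < J, UW q h (s + j * h) I a η) →
      ((I.filter fun n => ∃ m ≤ s + J * h, m₀ ≤ m ∧ (1 + δ) * √(2 * (v * m) * Real.log (Real.log m)) < |Sd q f (a n) m|).card : ℝ) ≤
        ε * I.card := by
  have hv := hC.pos
  have hqpos := NeZero.pos q
  have : Nonempty (Fin q) := ⟨⟨0, hqpos⟩⟩
  have hq0 : (0 : ℝ) < q := by exact_mod_cast hqpos
  have hJr : (1 : ℝ) ≤ J := by exact_mod_cast hJ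
  obtain ⟨j₀, hj₀3, hup⟩ := mod_up hC (ε / 4) (δ / 2) (by positivity) (by positivity) (by linarith)
  -- the size of the fluctuations in a window
  obtain ⟨X, hX⟩ : ∃ X : ℝ, X = Real.log (8 * J / ε + 1) := ⟨_, rfl⟩
  have hX0 : 0 ≤ X := by
    rw [hX]
    apply Real.log_nonneg
    have : 0 ≤ 8 * J / ε := by positivity
    linarith
  obtain ⟨K, hK⟩ : ∃ K : ℝ, K = 2 * √X := ⟨_, rfl⟩
  have hK0 : 0 ≤ K := by rw [hK]; positivity
  have hK2 : K ^ 2 = 4 * X := by
    rw [hK, mul_pow, Real.sq_sqrt hX0]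
    ring
  have hKe : J * (2 * Real.exp (-(K ^ 2 / 4))) ≤ ε / 4 := by
    have e1 : K ^ 2 / 4 = X := by rw [hK2]; ring
    rw [e1, Real.exp_neg, hX, Real.exp_log (by positivity)]
    have h1 : (8 * J / ε + 1)⁻¹ ≤ (8 * J / ε)⁻¹ := inv_anti₀ (by positivity) (by linarith)
    have h2 : (8 * (J : ℝ) / ε)⁻¹ = ε / (8 * J) := inv_div _ _
    rw [h2] at h1
    calc J * (2 * (8 * (J : ℝ) / ε + 1)⁻¹) ≤ J * (2 * (ε / (8 * J))) := by gcongr
      _ = ε / 4 := by field_simp; ring
  -- large times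
  obtain ⟨N₁, hN₁3, hN₁⟩ := ev_loglog (((J * K + s) ^ 2 + (2 * s / δ) ^ 2) / (2 * v) + 1)
  have hsr : (0 : ℝ) ≤ s := Nat.cast_nonneg _
  refine ⟨N₁ + j₀ + s, N₁ + ⌈K ^ 2⌉₊ + 1, ε / (4 * (J + 1)), by omega, by positivity, ?_⟩
  intro h hh I a hUW
  obtain ⟨η, hη⟩ : ∃ η : ℝ, η = ε / (4 * (J + 1)) := ⟨_, rfl⟩
  rw [← hη] at hUW
  have hh1 : 1 ≤ h := by omega
  have hhr : (0 : ℝ) < h := by exact_mod_cast hh1
  have hhK : K ^ 2 ≤ h := by
    have h1 : ((⌈K ^ 2⌉₊ : ℕ) : ℝ) ≤ h := by exact_mod_cast (show ⌈K ^ 2⌉₊ ≤ h by omega)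
    linarith [Nat.le_ceil (K ^ 2)]
  obtain ⟨lam, hlam⟩ : ∃ lam : ℝ, lam = K * √h := ⟨_, rfl⟩
  have hlam0 : 0 ≤ lam := by rw [hlam]; positivity
  have hlam2 : lam ≤ 2 * h := by
    have h1 : K ≤ √h := Real.le_sqrt_of_sq_le hhK
    have h2 : √(h : ℝ) * √h = h := Real.mul_self_sqrt hhr.le
    rw [hlam]
    nlinarith [Real.sqrt_nonneg (h : ℝ)]
  -- the two events
  obtain ⟨P0, hP0⟩ : ∃ P0 : (Fin h → Fin q) → Prop, P0 = fun e => ∃ j ≤ h, j₀ ≤ j ∧
      (1 + δ / 2) * √(2 * (v * j) * Real.log (Real.log j)) < |wf (fun b : Fin q => f b) e j| := ⟨_, rfl⟩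
  obtain ⟨P1, hP1⟩ : ∃ P1 : (Fin h → Fin q) → Prop, P1 = fun e => ∃ j ≤ h, lam ≤ |wf (fun b : Fin q => f b) e j| := ⟨_, rfl⟩
  have c0 : nq h P0 ≤ ε / 4 * (q : ℝ) ^ h := by
    have := hup h
    rw [Fintype.card_fin] at this
    rw [hP0]
    exact this
  have c1 : nq h P1 ≤ (q : ℝ) ^ h * (2 * Real.exp (-(K ^ 2 / 4))) := by
    have h1 := max_crude hC h h hh1 lam hlam0 hlam2
    rw [Fintype.card_fin] at h1
    have e1 : lam ^ 2 / (4 * h) = K ^ 2 / 4 := by
      rw [hlam, mul_pow, Real.sq_sqrt hhr.le]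
      field_simp
    rw [e1] at h1
    rw [hP1]
    exact h1
  have hqh : (0 : ℝ) < (q : ℝ) ^ h := by positivity
  have hI : (0 : ℝ) ≤ (I.card : ℝ) := Nat.cast_nonneg _
  have d0 : ((I.filter fun n => P0 (dwd q h (a n / q ^ s))).card : ℝ) ≤ (ε / 4 + η) * I.card := by
    have h1 := hUW 0 (by omega) P0
    rw [zero_mul, add_zero] at h1
    refine h1.trans (mul_le_mul_of_nonneg_right ?_ hI)
    have : nq h P0 / (q : ℝ) ^ h ≤ ε / 4 := by
      rw [div_le_iff₀ hqh]
      exact c0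
    linarith
  have d1 : ∀ j ∈ range J, ((I.filter fun n => P1 (dwd q h (a n / q ^ (s + j * h)))).card : ℝ) ≤
      (2 * Real.exp (-(K ^ 2 / 4)) + η) * I.card := by
    intro j hj
    rw [mem_range] at hj
    refine (hUW j hj P1).trans (mul_le_mul_of_nonneg_right ?_ hI)
    have : nq h P1 / (q : ℝ) ^ h ≤ 2 * Real.exp (-(K ^ 2 / 4)) := by
      rw [div_le_iff₀ hqh]
      linarith
    linarith
  have hsub : (I.filter fun n => ∃ m ≤ s + J * h, N₁ + j₀ + s ≤ m ∧
      (1 + δ) * √(2 * (v * m) * Real.log (Real.log m)) < |Sd q f (a n) m|) ⊆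
      (I.filter fun n => P0 (dwd q h (a n / q ^ s))) ∪
        (range J).biUnion (fun j => I.filter fun n => P1 (dwd q h (a n / q ^ (s + j * h)))) := by
    intro n hn
    rw [mem_filter] at hn
    obtain ⟨hnI, m, hm, hm0, hbig⟩ := hn
    rw [mem_union, mem_filter, mem_biUnion]
    by_contra hcon
    push Not at hcon
    obtain ⟨g0, g1⟩ := hcon
    have g0' := g0 hnI
    have g1' : ∀ j < J, ¬ P1 (dwd q h (a n / q ^ (s + j * h))) := by
      intro j hj hP
      exact g1 j (mem_range.2 hj) (mem_filter.2 ⟨hnI, hP⟩)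
    obtain ⟨m', rfl⟩ : ∃ m', m = s + m' := ⟨m - s, by omega⟩
    have hm' : m' ≤ J * h := by omega
    have hm'1 : N₁ + j₀ ≤ m' := by omega
    have hmr : (0 : ℝ) ≤ m' := Nat.cast_nonneg _
    have hmN : (N₁ : ℝ) ≤ m' := by exact_mod_cast (show N₁ ≤ m' by omega)
    obtain ⟨hLL, _⟩ := hN₁ m' hmN
    have hexp : Real.exp 1 ≤ m' := by
      have : (3 : ℝ) ≤ m' := by exact_mod_cast (show 3 ≤ m' by omega)
      linarith [exp_one_le_three]
    have hsm : ((s + m' : ℕ) : ℝ) = s + m' := by push_cast; ring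
    obtain ⟨hL0, hL1⟩ := LL_mono hexp (show (m' : ℝ) ≤ ((s + m' : ℕ) : ℝ) by rw [hsm]; linarith)
    have hD : √(2 * (v * m') * Real.log (Real.log m')) ≤ √(2 * (v * ((s + m' : ℕ) : ℝ)) * Real.log (Real.log ((s + m' : ℕ) : ℝ))) := by
      apply Real.sqrt_le_sqrt
      apply mul_le_mul _ hL1 hL0 (by positivity)
      rw [hsm]
      nlinarith
    obtain ⟨D, hDd⟩ : ∃ D : ℝ, D = √(2 * (v * ((s + m' : ℕ) : ℝ)) * Real.log (Real.log ((s + m' : ℕ) : ℝ))) := ⟨_, rfl⟩
    obtain ⟨D', hDd'⟩ : ∃ D' : ℝ, D' = √(2 * (v * m') * Real.log (Real.log m')) := ⟨_, rfl⟩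
    rw [← hDd] at hbig hD
    rw [← hDd'] at hD
    have hm1 : (1 : ℝ) ≤ m' := by linarith [Real.add_one_le_exp (1 : ℝ)]
    have hLv : ((J * K + s) ^ 2 + (2 * s / δ) ^ 2) + 2 * v ≤ 2 * v * Real.log (Real.log m') := by
      have h1 := mul_le_mul_of_nonneg_left hLL (show 0 ≤ 2 * v by positivity)
      have h2 : 2 * v * (((J * K + s) ^ 2 + (2 * s / δ) ^ 2) / (2 * v) + 1) = ((J * K + s) ^ 2 + (2 * s / δ) ^ 2) + 2 * v := by
        field_simp
      linarith
    have hs2 : (s : ℝ) ≤ δ / 2 * D' := by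
      have h1 : 2 * s / δ ≤ D' := by
        rw [hDd']
        apply Real.le_sqrt_of_sq_le
        have h2 : (2 * s / δ) ^ 2 ≤ 2 * v * Real.log (Real.log m') := by nlinarith [sq_nonneg (J * K + s)]
        have h3 : 2 * v * Real.log (Real.log m') ≤ 2 * (v * m') * Real.log (Real.log m') := by
          have h4 : 0 ≤ 2 * v * Real.log (Real.log m') := by positivity
          nlinarith
        exact h2.trans h3
      rw [div_le_iff₀ hδ] at h1
      linarith
    rw [Sd_add] at hbig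
    have hA : |Sd q f (a n) s| ≤ s := Sd_abs q f hf _ _
    have hB := abs_add_le (Sd q f (a n) s) (Sd q f (a n / q ^ s) m')
    have hD0 : 0 ≤ D' := by rw [hDd']; positivity
    rcases Nat.lt_or_ge h m' with hmh | hmh
    · -- large times
      have h1 : |Sd q f (a n / q ^ s) m'| ≤ J * lam := by
        apply sum_windows q f (a n / q ^ s) h J lam hlam0 _ m' hm'
        intro j hj r hr
        by_contra hcon2
        push Not at hcon2
        apply g1' j hj
        rw [hP1]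
        refine ⟨r, hr, ?_⟩
        rw [← Sd_eq f _ h r hr]
        rw [Nat.div_div_eq_div_mul, ← pow_add] at hcon2
        exact hcon2.le
      have h2 : J * lam + s ≤ D' := by
        rw [hDd']
        have e1 : J * lam + s ≤ (J * K + s) * √h := by
          have h3 : 1 ≤ √(h : ℝ) := by
            rw [Real.one_le_sqrt]
            exact_mod_cast hh1
          rw [hlam]
          nlinarith
        refine e1.trans ?_
        have e2 : (J * K + s) * √(h : ℝ) = √((J * K + s) ^ 2 * h) := by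
          rw [Real.sqrt_mul (sq_nonneg _), Real.sqrt_sq (by positivity)]
        rw [e2]
        apply Real.sqrt_le_sqrt
        have h4 : (h : ℝ) ≤ m' := by exact_mod_cast hmh.le
        have h5 : (J * K + s) ^ 2 ≤ 2 * v * Real.log (Real.log m') := by nlinarith [sq_nonneg (2 * s / δ)]
        calc (J * K + s) ^ 2 * h ≤ (2 * v * Real.log (Real.log m')) * m' := mul_le_mul h5 h4 hhr.le (by positivity)
          _ = _ := by ring
      have h3 : D ≤ (1 + δ) * D := by
        have : 0 ≤ D := hD0.trans hD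
        nlinarith
      linarith
    · apply g0'
      rw [hP0]
      refine ⟨m', hmh, by omega, ?_⟩
      rw [← Sd_eq f _ h m' hmh, ← hDd']
      have h3 : (1 + δ) * D' ≤ (1 + δ) * D := mul_le_mul_of_nonneg_left hD (by linarith)
      linarith
  have hcard : ((I.filter fun n => ∃ m ≤ s + J * h, N₁ + j₀ + s ≤ m ∧
      (1 + δ) * √(2 * (v * m) * Real.log (Real.log m)) < |Sd q f (a n) m|).card : ℝ) ≤
      ((I.filter fun n => P0 (dwd q h (a n / q ^ s))).card : ℝ) +
        ∑ j ∈ range J, ((I.filter fun n => P1 (dwd q h (a n / q ^ (s + j * h)))).card : ℝ) := by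
    have h1 := (card_le_card hsub).trans (card_union_le _ _)
    have h2 : ((range J).biUnion (fun j => I.filter fun n => P1 (dwd q h (a n / q ^ (s + j * h))))).card ≤
        ∑ j ∈ range J, (I.filter fun n => P1 (dwd q h (a n / q ^ (s + j * h)))).card := card_biUnion_le
    have h3 := h1.trans (Nat.add_le_add_left h2 _)
    exact_mod_cast h3
  refine hcard.trans ?_
  have h1 := sum_le_sum d1
  rw [sum_const, card_range, nsmul_eq_mul] at h1
  have h2 : (ε / 4 + η) * I.card + J * ((2 * Real.exp (-(K ^ 2 / 4)) + η) * I.card) ≤ ε * I.card := by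
    have h3 : (ε / 4 + η) + J * (2 * Real.exp (-(K ^ 2 / 4)) + η) ≤ ε := by
      have h4 : (J + 1) * η = ε / 4 := by rw [hη]; field_simp
      nlinarith
    have h4 := mul_le_mul_of_nonneg_right h3 hI
    linarith
  linarith

open Classical in
theorem eng_low (f : ℕ → ℝ) (v : ℝ) (hC : Cen (fun b : Fin q => f b) v) (hf : ∀ b, |f b| ≤ 1) (s : ℕ) (ε δ : ℝ)
    (hε : 0 < ε) (hδ : 0 < δ) (hδ1 : δ ≤ 1) : ∃ (h₀ : ℕ) (η : ℝ), 0 < η ∧ ∀ h, h₀ ≤ h → ∀ (I : Finset ℕ) (a : ℕ → ℕ),
      UW q h s I a η → ∀ σ : ℝ, |σ| = 1 →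
      ((I.filter fun n => ¬ ∃ m ≤ s + h, (h : ℝ) ^ (1 - δ) ≤ m ∧
        (1 - δ) * √(2 * (v * m) * Real.log (Real.log m)) ≤ σ * Sd q f (a n) m).card : ℝ) ≤ ε * I.card := by
  have hv := hC.pos
  have hqpos := NeZero.pos q
  have : Nonempty (Fin q) := ⟨⟨0, hqpos⟩⟩
  have hq0 : (0 : ℝ) < q := by exact_mod_cast hqpos
  obtain ⟨k₀, hk₀, hlow⟩ := mod_low hC (ε / 2) (δ / 2) (by positivity) (by positivity) (by linarith)
  have hsr : (0 : ℝ) ≤ s := Nat.cast_nonneg _
  obtain ⟨B, hB⟩ : ∃ B : ℝ, B = (3 * s / δ) ^ 2 / (2 * v) + 8 / δ * Real.log 2 + 1 := ⟨_, rfl⟩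
  obtain ⟨N₁, hN₁3, hN₁⟩ := ev_loglog B
  -- `h ^ (1 - δ/2) ≥ 8 s / δ`
  have hpow : Tendsto (fun h : ℕ => (h : ℝ) ^ (1 - δ / 2)) atTop atTop :=
    (tendsto_rpow_atTop (by linarith)).comp tendsto_natCast_atTop_atTop
  obtain ⟨h₁, hh₁⟩ := eventually_atTop.1 (hpow.eventually_ge_atTop (8 * s / δ + 1))
  refine ⟨k₀ + N₁ + h₁ + s, ε / 2, by positivity, ?_⟩
  intro h hh I a hUW σ hσ
  have hhr : (0 : ℝ) < h := by exact_mod_cast (show 0 < h by omega)
  obtain ⟨hLL, hLh⟩ := hN₁ h (by exact_mod_cast (show N₁ ≤ h by omega))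
  have hpw := hh₁ h (by omega)
  have hqh : (0 : ℝ) < (q : ℝ) ^ h := by positivity
  have hI : (0 : ℝ) ≤ (I.card : ℝ) := Nat.cast_nonneg _
  obtain ⟨P0, hP0⟩ : ∃ P0 : (Fin h → Fin q) → Prop, P0 = fun e => ¬ ∃ j ≤ h, (h : ℝ) ^ (1 - δ / 2) ≤ j ∧
      (1 - δ / 2) * √(2 * (v * j) * Real.log (Real.log h)) ≤ σ * wf (fun b : Fin q => f b) e j := ⟨_, rfl⟩
  have c0 : nq h P0 ≤ ε / 2 * (q : ℝ) ^ h := by
    have := hlow h (by omega) σ hσ
    rw [Fintype.card_fin] at this
    rw [hP0]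
    exact this
  have d0 : ((I.filter fun n => P0 (dwd q h (a n / q ^ s))).card : ℝ) ≤ ε * I.card := by
    refine (hUW P0).trans (mul_le_mul_of_nonneg_right ?_ hI)
    have : nq h P0 / (q : ℝ) ^ h ≤ ε / 2 := by
      rw [div_le_iff₀ hqh]
      exact c0
    linarith
  refine le_trans ?_ d0
  have hsub : (I.filter fun n => ¬ ∃ m ≤ s + h, (h : ℝ) ^ (1 - δ) ≤ m ∧
        (1 - δ) * √(2 * (v * m) * Real.log (Real.log m)) ≤ σ * Sd q f (a n) m) ⊆ I.filter fun n => P0 (dwd q h (a n / q ^ s)) := by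
    intro n hn
    rw [mem_filter] at hn ⊢
    refine ⟨hn.1, ?_⟩
    rw [hP0]
    rintro ⟨j, hj, hj1, hj2⟩
    apply hn.2
    have hδs : 0 ≤ 8 * s / δ := by positivity
    have hj0 : (1 : ℝ) ≤ j := by linarith
    have hh3 : (3 : ℝ) ≤ h := by exact_mod_cast (show 3 ≤ h by omega)
    refine ⟨s + j, by omega, ?_, ?_⟩
    · have h1 : (h : ℝ) ^ (1 - δ) ≤ (h : ℝ) ^ (1 - δ / 2) := Real.rpow_le_rpow_of_exponent_le (by linarith) (by linarith)
      push_cast
      linarith
    · rw [Sd_add, Sd_eq f _ h j hj]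
      have hA : |Sd q f (a n) s| ≤ s := Sd_abs q f hf _ _
      have hA2 : -(s : ℝ) ≤ σ * Sd q f (a n) s := by
        have : |σ * Sd q f (a n) s| ≤ s := by rw [abs_mul, hσ, one_mul]; exact hA
        linarith [(abs_le.1 this).1]
      obtain ⟨D, hD⟩ : ∃ D : ℝ, D = √(2 * (v * j) * Real.log (Real.log h)) := ⟨_, rfl⟩
      rw [← hD] at hj2
      have hD0 : 0 ≤ D := by rw [hD]; positivity
      have hL0 : 0 ≤ Real.log 2 := Real.log_nonneg (by norm_num)
      have hLL1 : 1 ≤ Real.log (Real.log h) := by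
        have : 0 ≤ (3 * s / δ) ^ 2 / (2 * v) := by positivity
        have : 0 ≤ 8 / δ * Real.log 2 := by positivity
        linarith
      -- `s ≤ (3 δ / 8) D`
      have hsD : (s : ℝ) ≤ 3 * δ / 8 * D := by
        have h1 : 3 * s / δ ≤ D := by
          rw [hD]
          apply Real.le_sqrt_of_sq_le
          have h2 : (3 * s / δ) ^ 2 ≤ 2 * v * Real.log (Real.log h) := by
            have h3 : (3 * s / δ) ^ 2 / (2 * v) ≤ Real.log (Real.log h) := by
              have : 0 ≤ 8 / δ * Real.log 2 := by positivity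
              linarith
            rw [div_le_iff₀ (by positivity)] at h3
            linarith
          have h3 : 0 ≤ 2 * v * Real.log (Real.log h) := by positivity
          nlinarith
        rw [div_le_iff₀ hδ] at h1
        linarith
      -- the comparison of the scales
      have hcmp : √(2 * (v * ((s + j : ℕ) : ℝ)) * Real.log (Real.log ((s + j : ℕ) : ℝ))) ≤ (1 + δ / 8) * D := by
        have e1 : (1 + δ / 8) * D = √((1 + δ / 8) ^ 2 * (2 * (v * j) * Real.log (Real.log h))) := by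
          rw [Real.sqrt_mul (sq_nonneg _), Real.sqrt_sq (by positivity), hD]
        rw [e1]
        apply Real.sqrt_le_sqrt
        have e2 : ((s + j : ℕ) : ℝ) ≤ (1 + δ / 8) * j := by
          push_cast
          have h1 : 8 * s / δ ≤ j := by linarith
          rw [div_le_iff₀ hδ] at h1
          linarith
        have e3 : Real.log (Real.log ((s + j : ℕ) : ℝ)) ≤ (1 + δ / 8) * Real.log (Real.log h) := by
          have h1 : ((s + j : ℕ) : ℝ) ≤ 2 * h := by
            have h2 : s + j ≤ 2 * h := by omega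
            exact_mod_cast h2
          have h2 : Real.log ((s + j : ℕ) : ℝ) ≤ Real.log 2 + Real.log h := by
            rw [← Real.log_mul (by norm_num) hhr.ne']
            exact Real.log_le_log (by push_cast; linarith) h1
          have h3 : Real.log 2 ≤ Real.log h := Real.log_le_log (by norm_num) (by linarith)
          have hlh : 0 < Real.log h := Real.log_pos (by linarith)
          have h4 : Real.log ((s + j : ℕ) : ℝ) ≤ 2 * Real.log h := by linarith
          rcases le_or_gt (Real.log ((s + j : ℕ) : ℝ)) 0 with hneg | hpos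
          · have hz : Real.log ((s + j : ℕ) : ℝ) = 0 := by
              apply le_antisymm hneg
              apply Real.log_nonneg
              push_cast
              linarith
            rw [hz, Real.log_zero]
            positivity
          · have h5 : Real.log (Real.log ((s + j : ℕ) : ℝ)) ≤ Real.log 2 + Real.log (Real.log h) := by
              rw [← Real.log_mul (by norm_num) hlh.ne']
              exact Real.log_le_log hpos h4
            have h6 : Real.log 2 ≤ δ / 8 * Real.log (Real.log h) := by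
              have h7 : 8 / δ * Real.log 2 ≤ Real.log (Real.log h) := by
                have : 0 ≤ (3 * s / δ) ^ 2 / (2 * v) := by positivity
                linarith
              have h8 := mul_le_mul_of_nonneg_left h7 (show 0 ≤ δ / 8 by positivity)
              have h9 : δ / 8 * (8 / δ * Real.log 2) = Real.log 2 := by field_simp
              linarith
            linarith
        have e4 : 0 ≤ v * ((s + j : ℕ) : ℝ) := by positivity
        calc 2 * (v * ((s + j : ℕ) : ℝ)) * Real.log (Real.log ((s + j : ℕ) : ℝ))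
            ≤ 2 * (v * ((s + j : ℕ) : ℝ)) * ((1 + δ / 8) * Real.log (Real.log h)) := mul_le_mul_of_nonneg_left e3 (by positivity)
          _ ≤ 2 * (v * ((1 + δ / 8) * j)) * ((1 + δ / 8) * Real.log (Real.log h)) := by
              apply mul_le_mul_of_nonneg_right _ (by positivity)
              have := mul_le_mul_of_nonneg_left e2 hv.le
              linarith
          _ = _ := by ring
      have h1 := mul_le_mul_of_nonneg_left hcmp (show 0 ≤ 1 - δ by linarith)
      refine h1.trans ?_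
      have h2 : (1 - δ) * ((1 + δ / 8) * D) ≤ (1 - δ / 2) * D - 3 * δ / 8 * D := by
        have : (1 - δ) * (1 + δ / 8) ≤ 1 - δ / 2 - 3 * δ / 8 := by nlinarith
        nlinarith
      rw [mul_add]
      linarith
  exact_mod_cast card_le_card hsub

end Pool.Agent.H46.DG
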