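import Pool.Agent.H46.DG.Eng2
import Pool.Graph.R_pool_sql_team_seeded_b3bd081e.H46R3.DG.Final

/-!
# The lowest digits of powers
-/

set_option autoImplicit false

namespace Pool.Agent.H46.DG

open Finset Filter

/-- the mean of a function of the digits -/
noncomputable def mn (q : ℕ) (f : ℕ → ℝ) : ℝ := (∑ b ∈ range q, f b) / q

/-- the variance of a function of the digits -/
noncomputable def vr (q : ℕ) (f : ℕ → ℝ) : ℝ := (∑ b ∈ range q, (f b - mn q f) ^ 2) / q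

lemma normal (q : ℕ) [NeZero q] (f : ℕ → ℝ) (hV : 0 < vr q f) : ∃ (M : ℝ) (g : ℕ → ℝ), 0 < M ∧
    Cen (fun b : Fin q => g b) (vr q f / M ^ 2) ∧ (∀ b, |g b| ≤ 1) ∧
    ∀ x m, Sd q g x m = (∑ i ∈ range m, f (x / q ^ i % q) - m * mn q f) / M := by
  have hqpos := NeZero.pos q
  have hq0 : (0 : ℝ) < q := by exact_mod_cast hqpos
  obtain ⟨M, hM⟩ : ∃ M : ℝ, M = ∑ b ∈ range q, |f b - mn q f| + 1 := ⟨_, rfl⟩
  have hM0 : 0 < M := by
    rw [hM]
    have : 0 ≤ ∑ b ∈ range q, |f b - mn q f| := sum_nonneg fun b _ => abs_nonneg _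
    linarith
  obtain ⟨g, hg⟩ : ∃ g : ℕ → ℝ, g = fun b => if b < q then (f b - mn q f) / M else 0 := ⟨_, rfl⟩
  refine ⟨M, g, hM0, ⟨?_, ?_, ?_, by positivity⟩, ?_, ?_⟩
  · rintro ⟨b, hb⟩
    simp only [hg]
    rw [if_pos hb, abs_div, abs_of_pos hM0, div_le_one hM0, hM]
    have := single_le_sum (f := fun b => |f b - mn q f|) (fun b _ => abs_nonneg _) (mem_range.2 hb)
    linarith
  · rw [Fin.sum_univ_eq_sum_range (fun b => g b) q]
    have h1 : ∀ b ∈ range q, g b = (f b - mn q f) / M := by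
      intro b hb
      rw [hg]
      simp only
      rw [if_pos (mem_range.1 hb)]
    rw [sum_congr rfl h1, ← sum_div, sum_sub_distrib, sum_const, card_range, nsmul_eq_mul]
    unfold mn
    rw [mul_div_cancel₀ _ hq0.ne', sub_self, zero_div]
  · rw [Fin.sum_univ_eq_sum_range (fun b => g b ^ 2) q, Fintype.card_fin]
    have h1 : ∀ b ∈ range q, g b ^ 2 = (f b - mn q f) ^ 2 / M ^ 2 := by
      intro b hb
      rw [hg]
      simp only
      rw [if_pos (mem_range.1 hb), div_pow]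
    rw [sum_congr rfl h1, ← sum_div]
    unfold vr
    field_simp
  · intro b
    rw [hg]
    simp only
    split_ifs with hb
    · rw [abs_div, abs_of_pos hM0, div_le_one hM0, hM]
      have := single_le_sum (f := fun b => |f b - mn q f|) (fun b _ => abs_nonneg _) (mem_range.2 hb)
      linarith
    · simp
  · intro x m
    unfold Sd
    have h1 : ∀ i ∈ range m, g (x / q ^ i % q) = (f (x / q ^ i % q) - mn q f) / M := by
      intro i _
      rw [hg]
      simp only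
      rw [if_pos (Nat.mod_lt _ hqpos)]
    rw [sum_congr rfl h1, ← sum_div, sum_sub_distrib, sum_const, card_range, nsmul_eq_mul]

/-- scaling of the inequalities -/
lemma scale_eq (V M : ℝ) (hM : 0 < M) (m L : ℝ) : √(2 * (V / M ^ 2 * m) * L) = √(2 * V * m * L) / M := by
  rw [show 2 * (V / M ^ 2 * m) * L = 2 * V * m * L / M ^ 2 by ring, Real.sqrt_div' _ (sq_nonneg M), Real.sqrt_sq hM.le]

/-- near equidistribution of the windows of the digits of powers -/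
theorem pow_uw (p q : ℕ) [NeZero q] (hp : p.Prime) (hq : q.Prime) (hpq : p ≠ q) : ∃ s : ℕ, ∀ C : ℝ, 0 < C → ∃ c : ℝ, 0 < c ∧
    ∀ η : ℝ, 0 < η → ∃ N₀ : ℕ, 1 ≤ N₀ ∧ ∀ N : ℕ, N₀ ≤ N → ∀ z : ℕ, ¬ q ∣ z → ∀ t h : ℕ, s ≤ t → (h : ℝ) ≤ c * Real.log N →
      ((t + h : ℕ) : ℝ) ≤ C * Real.log N → UW q h t (range N) (fun n => z * p ^ n) η := by
  obtain ⟨⟨s, h0⟩, _, _⟩ := Pool.Agent.H46R3.DG.final p q hp hq hpq
  refine ⟨s, fun C hC => ?_⟩
  obtain ⟨δ, K, hδ, -, h1⟩ := h0 C hC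
  have hq2 : (2 : ℝ) ≤ q := by exact_mod_cast hq.two_le
  have hlq : 0 < Real.log q := Real.log_pos (by linarith)
  refine ⟨δ / (2 * Real.log q), by positivity, fun η hη => ?_⟩
  have hlim : Tendsto (fun N : ℕ => (N : ℝ) ^ (δ / 2)) atTop atTop :=
    (tendsto_rpow_atTop (by positivity)).comp tendsto_natCast_atTop_atTop
  obtain ⟨N₀, hN₀⟩ := eventually_atTop.1 (hlim.eventually_ge_atTop (|K| / η))
  refine ⟨N₀ + 1, by omega, fun N hN z hz t h hst hh htl => ?_⟩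
  have hN1 : 1 ≤ N := by omega
  have hNr : (0 : ℝ) < N := by exact_mod_cast hN1
  have hNp := hN₀ N (by omega)
  rw [div_le_iff₀ hη] at hNp
  apply UW_of h t (range N) (fun n => z * p ^ n) η (|K| * (N : ℝ) ^ (1 - δ))
  · intro w hw
    have h2 := h1 N t h w z hN1 hst htl hw hz
    rw [card_range]
    have h3 := (abs_le.1 h2).2
    have h4 : K * (N : ℝ) ^ (1 - δ) ≤ |K| * (N : ℝ) ^ (1 - δ) := mul_le_mul_of_nonneg_right (le_abs_self K) (by positivity)
    have e : (((range N).filter fun n => z * p ^ n / q ^ t % q ^ h = w).card : ℝ) = ((#{n ∈ range N | z * p ^ n / q ^ t % q ^ h = w} : ℕ) : ℝ) := by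
      congr 1
    rw [e]
    linarith
  · rw [card_range]
    have h2 : (q : ℝ) ^ h ≤ (N : ℝ) ^ (δ / 2) := by
      have e1 : (q : ℝ) ^ h = Real.exp (h * Real.log q) := by
        rw [mul_comm, Real.exp_mul, Real.exp_log (by linarith), Real.rpow_natCast]
      have e2 : (N : ℝ) ^ (δ / 2) = Real.exp (δ / 2 * Real.log N) := by
        rw [Real.rpow_def_of_pos hNr, mul_comm]
      rw [e1, e2]
      apply Real.exp_le_exp.2
      have h3 := mul_le_mul_of_nonneg_right hh hlq.le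
      refine h3.trans (le_of_eq ?_)
      field_simp
    have h3 : (N : ℝ) ^ (1 - δ) * (N : ℝ) ^ (δ / 2) * (N : ℝ) ^ (δ / 2) = N := by
      rw [← Real.rpow_add hNr, ← Real.rpow_add hNr]
      have : 1 - δ + δ / 2 + δ / 2 = 1 := by ring
      rw [this, Real.rpow_one]
    have hA : 0 ≤ (N : ℝ) ^ (1 - δ) := by positivity
    have hB : 0 ≤ (N : ℝ) ^ (δ / 2) := by positivity
    calc (q : ℝ) ^ h * (|K| * (N : ℝ) ^ (1 - δ)) ≤ (N : ℝ) ^ (δ / 2) * (((N : ℝ) ^ (δ / 2) * η) * (N : ℝ) ^ (1 - δ)) := by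
          gcongr
      _ = η * ((N : ℝ) ^ (1 - δ) * (N : ℝ) ^ (δ / 2) * (N : ℝ) ^ (δ / 2)) := by ring
      _ = η * N := by rw [h3]
  · positivity

/-- the deviation of the sum of `f` over the `m` lowest digits -/
noncomputable def dvn (q : ℕ) (f : ℕ → ℝ) (x m : ℕ) : ℝ := ∑ i ∈ range m, f (x / q ^ i % q) - m * mn q f

open Classical in
theorem pow_up (p q : ℕ) [NeZero q] (hp : p.Prime) (hq : q.Prime) (hpq : p ≠ q) (f : ℕ → ℝ) (hV : 0 < vr q f) (C ε δ : ℝ) (hC : 0 < C)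
    (hε : 0 < ε) (hδ : 0 < δ) (hδ1 : δ ≤ 1) : ∃ m₀ N₀ : ℕ, 3 ≤ m₀ ∧ ∀ N : ℕ, N₀ ≤ N → ∀ z : ℕ, ¬ q ∣ z →
      (((range N).filter fun n => ∃ m : ℕ, m₀ ≤ m ∧ (m : ℝ) ≤ C * Real.log N ∧
        (1 + δ) * √(2 * vr q f * m * Real.log (Real.log m)) < |dvn q f (z * p ^ n) m|).card : ℝ) ≤ ε * N := by
  obtain ⟨M, g, hM, hcen, hg1, hg2⟩ := normal q f hV
  obtain ⟨s, H⟩ := pow_uw p q hp hq hpq
  obtain ⟨c, hc, H⟩ := H (C + 3) (by positivity)
  obtain ⟨c', hc'⟩ : ∃ c' : ℝ, c' = min c 1 := ⟨_, rfl⟩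
  have hc'0 : 0 < c' := by rw [hc']; exact lt_min hc one_pos
  have hc'1 : c' ≤ 1 := by rw [hc']; exact min_le_right _ _
  have hc'2 : c' ≤ c := by rw [hc']; exact min_le_left _ _
  obtain ⟨J, hJ⟩ : ∃ J : ℕ, J = ⌈C / c'⌉₊ + 1 := ⟨_, rfl⟩
  have hJ1 : C / c' + 1 ≤ J := by
    rw [hJ]; push_cast
    linarith [Nat.le_ceil (C / c')]
  have hJ2 : (J : ℝ) ≤ C / c' + 2 := by
    rw [hJ]; push_cast
    linarith [Nat.ceil_lt_add_one (show 0 ≤ C / c' by positivity)]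
  obtain ⟨m₀, h₀, η, hm₀, hη, E⟩ := eng_up g _ hcen hg1 s J (by omega) ε δ hε hδ hδ1
  obtain ⟨N₀, hN₀, H⟩ := H η hη
  have hlim : Tendsto (fun N : ℕ => Real.log (N : ℝ)) atTop atTop := Real.tendsto_log_atTop.comp tendsto_natCast_atTop_atTop
  obtain ⟨N₁, hN₁⟩ := eventually_atTop.1 ((hlim.eventually_ge_atTop ((h₀ + 1) / c')).and
    ((hlim.eventually_ge_atTop (s : ℝ)).and (hlim.eventually_ge_atTop ((C / c' + 1) / c'))))
  refine ⟨m₀, N₀ + N₁, hm₀, fun N hN z hz => ?_⟩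
  obtain ⟨g1, g2, g3⟩ := hN₁ N (by omega)
  obtain ⟨L, hL⟩ : ∃ L : ℝ, L = Real.log N := ⟨_, rfl⟩
  rw [← hL] at g1 g2 g3
  rw [div_le_iff₀ hc'0] at g1 g3
  have hL0 : 0 ≤ L := (Nat.cast_nonneg s).trans g2
  obtain ⟨h, hh⟩ : ∃ h : ℕ, h = ⌊c' * L⌋₊ := ⟨_, rfl⟩
  have hh1 : (h : ℝ) ≤ c' * L := by rw [hh]; exact Nat.floor_le (by positivity)
  have hh2 : c' * L - 1 < h := by rw [hh]; exact Nat.sub_one_lt_floor _
  have hhh : h₀ ≤ h := by
    have : (h₀ : ℝ) ≤ h := by linarith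
    exact_mod_cast this
  have hcov : C * L ≤ J * h := by
    have h1 : (C / c' + 1) * (c' * L - 1) ≤ J * h := by
      apply mul_le_mul hJ1 hh2.le _ (by positivity)
      have : 0 ≤ C / c' := by positivity
      nlinarith
    have h2 : (C / c' + 1) * (c' * L - 1) = C * L + (L * c' - (C / c' + 1)) := by field_simp; ring
    linarith
  have hUW : ∀ j < J, UW q h (s + j * h) (range N) (fun n => z * p ^ n) η := by
    intro j hj
    apply H N (by omega) z hz (s + j * h) h (by omega)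
    · rw [← hL]
      exact hh1.trans (mul_le_mul_of_nonneg_right hc'2 hL0)
    · rw [← hL]
      have hj1 : ((s + j * h + h : ℕ) : ℝ) ≤ s + J * h := by
        have : s + j * h + h ≤ s + J * h := by nlinarith
        exact_mod_cast this
      have h2 : (J : ℝ) * h ≤ (C / c' + 2) * (c' * L) := mul_le_mul hJ2 hh1 (Nat.cast_nonneg _) (by positivity)
      have h3 : (C / c' + 2) * (c' * L) = C * L + 2 * c' * L := by field_simp
      nlinarith
  have h1 := E h hhh (range N) (fun n => z * p ^ n) hUW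
  rw [card_range] at h1
  refine le_trans ?_ h1
  have hsub : ((range N).filter fun n => ∃ m : ℕ, m₀ ≤ m ∧ (m : ℝ) ≤ C * Real.log N ∧
        (1 + δ) * √(2 * vr q f * m * Real.log (Real.log m)) < |dvn q f (z * p ^ n) m|) ⊆
      (range N).filter fun n => ∃ m ≤ s + J * h, m₀ ≤ m ∧
        (1 + δ) * √(2 * (vr q f / M ^ 2 * m) * Real.log (Real.log m)) < |Sd q g (z * p ^ n) m| := by
    intro n hn
    rw [mem_filter] at hn ⊢
    obtain ⟨hn1, m, hm, hmC, hd⟩ := hn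
    refine ⟨hn1, m, ?_, hm, ?_⟩
    · rw [← hL] at hmC
      have h2 : (m : ℝ) ≤ ((s + J * h : ℕ) : ℝ) := by
        push_cast
        have : (0 : ℝ) ≤ s := Nat.cast_nonneg _
        linarith
      exact_mod_cast h2
    · rw [scale_eq _ M hM, hg2, abs_div, abs_of_pos hM, ← mul_div_assoc]
      exact div_lt_div_of_pos_right hd hM
  exact_mod_cast card_le_card hsub

open Classical in
theorem pow_low (p q : ℕ) [NeZero q] (hp : p.Prime) (hq : q.Prime) (hpq : p ≠ q) (f : ℕ → ℝ) (hV : 0 < vr q f) (C ε δ : ℝ) (hC : 0 < C)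
    (hε : 0 < ε) (hδ : 0 < δ) (hδ1 : δ ≤ 1) : ∃ N₀ : ℕ, ∀ N : ℕ, N₀ ≤ N → ∀ z : ℕ, ¬ q ∣ z → ∀ σ : ℝ, |σ| = 1 →
      (((range N).filter fun n => ¬ ∃ m : ℕ, Real.log N ^ (1 - δ) ≤ m ∧ (m : ℝ) ≤ C * Real.log N ∧
        (1 - δ) * √(2 * vr q f * m * Real.log (Real.log m)) ≤ σ * dvn q f (z * p ^ n) m).card : ℝ) ≤ ε * N := by
  obtain ⟨M, g, hM, hcen, hg1, hg2⟩ := normal q f hV
  obtain ⟨s, H⟩ := pow_uw p q hp hq hpq
  obtain ⟨c, hc, H⟩ := H 2 (by norm_num)
  obtain ⟨c', hc'⟩ : ∃ c' : ℝ, c' = min c (min 1 (C / 2)) := ⟨_, rfl⟩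
  have hc'0 : 0 < c' := by rw [hc']; exact lt_min hc (lt_min one_pos (by positivity))
  have hc'1 : c' ≤ 1 := by rw [hc']; exact (min_le_right _ _).trans (min_le_left _ _)
  have hc'3 : c' ≤ C / 2 := by rw [hc']; exact (min_le_right _ _).trans (min_le_right _ _)
  have hc'2 : c' ≤ c := by rw [hc']; exact min_le_left _ _
  obtain ⟨h₀, η, hη, E⟩ := eng_low g _ hcen hg1 s ε (δ / 2) hε (by positivity) (by linarith)
  obtain ⟨N₀, hN₀, H⟩ := H η hη
  have hlim : Tendsto (fun N : ℕ => Real.log (N : ℝ)) atTop atTop := Real.tendsto_log_atTop.comp tendsto_natCast_atTop_atTop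
  have hpow : Tendsto (fun N : ℕ => Real.log (N : ℝ) ^ (δ / 2)) atTop atTop := (tendsto_rpow_atTop (by positivity)).comp hlim
  obtain ⟨N₁, hN₁⟩ := eventually_atTop.1 ((hlim.eventually_ge_atTop ((h₀ + 2) / c')).and
    ((hlim.eventually_ge_atTop ((s : ℝ) + 2 * s / C)).and (hpow.eventually_ge_atTop ((2 / c') ^ (1 - δ / 2)))))
  refine ⟨N₀ + N₁ + 3, fun N hN z hz σ hσ => ?_⟩
  obtain ⟨g1, g2, g3⟩ := hN₁ N (by omega)
  obtain ⟨L, hL⟩ : ∃ L : ℝ, L = Real.log N := ⟨_, rfl⟩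
  rw [← hL] at g1 g2 g3
  rw [div_le_iff₀ hc'0] at g1
  have hs0 : (0 : ℝ) ≤ s := Nat.cast_nonneg _
  have hsC : 0 ≤ 2 * s / C := by positivity
  have hL0 : 0 < L := by
    rw [hL]
    apply Real.log_pos
    exact_mod_cast (show 1 < N by omega)
  obtain ⟨h, hh⟩ : ∃ h : ℕ, h = ⌊c' * L⌋₊ := ⟨_, rfl⟩
  have hh1 : (h : ℝ) ≤ c' * L := by rw [hh]; exact Nat.floor_le (by positivity)
  have hh2 : c' * L - 1 < h := by rw [hh]; exact Nat.sub_one_lt_floor _
  have hh0r : (0 : ℝ) ≤ h₀ := Nat.cast_nonneg _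
  have hhh : h₀ ≤ h := by
    have : (h₀ : ℝ) ≤ h := by linarith
    exact_mod_cast this
  have hUW : UW q h s (range N) (fun n => z * p ^ n) η := by
    apply H N (by omega) z hz s h le_rfl
    · rw [← hL]
      exact hh1.trans (mul_le_mul_of_nonneg_right hc'2 hL0.le)
    · rw [← hL]
      push_cast
      nlinarith
  have h1 := E h hhh (range N) (fun n => z * p ^ n) hUW σ hσ
  rw [card_range] at h1
  refine le_trans ?_ h1
  have hsub : ((range N).filter fun n => ¬ ∃ m : ℕ, Real.log N ^ (1 - δ) ≤ m ∧ (m : ℝ) ≤ C * Real.log N ∧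
        (1 - δ) * √(2 * vr q f * m * Real.log (Real.log m)) ≤ σ * dvn q f (z * p ^ n) m) ⊆
      (range N).filter fun n => ¬ ∃ m ≤ s + h, (h : ℝ) ^ (1 - δ / 2) ≤ m ∧
        (1 - δ / 2) * √(2 * (vr q f / M ^ 2 * m) * Real.log (Real.log m)) ≤ σ * Sd q g (z * p ^ n) m := by
    intro n hn
    rw [mem_filter] at hn ⊢
    refine ⟨hn.1, ?_⟩
    rintro ⟨m, hm, hm1, hm2⟩
    apply hn.2
    refine ⟨m, ?_, ?_, ?_⟩
    · rw [← hL]
      -- `L ^ (1 - δ) ≤ h ^ (1 - δ/2)`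
      have h2 : c' / 2 * L ≤ h := by linarith
      have h3 : (c' / 2 * L) ^ (1 - δ / 2) ≤ (h : ℝ) ^ (1 - δ / 2) := Real.rpow_le_rpow (by positivity) h2 (by linarith)
      have h4 : L ^ (1 - δ) ≤ (c' / 2 * L) ^ (1 - δ / 2) := by
        rw [Real.mul_rpow (by positivity) hL0.le]
        have e1 : L ^ (1 - δ / 2) = L ^ (1 - δ) * L ^ (δ / 2) := by
          rw [← Real.rpow_add hL0]
          congr 1
          ring
        rw [e1]
        have e2 : 1 ≤ (c' / 2) ^ (1 - δ / 2) * L ^ (δ / 2) := by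
          have h5 : (c' / 2) ^ (1 - δ / 2) * (2 / c') ^ (1 - δ / 2) = 1 := by
            rw [← Real.mul_rpow (by positivity) (by positivity)]
            rw [div_mul_div_comm, mul_comm c' 2, div_self (by positivity), Real.one_rpow]
          calc (1 : ℝ) = (c' / 2) ^ (1 - δ / 2) * (2 / c') ^ (1 - δ / 2) := h5.symm
            _ ≤ _ := mul_le_mul_of_nonneg_left g3 (by positivity)
        have h6 : 0 ≤ L ^ (1 - δ) := by positivity
        nlinarith
      linarith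
    · rw [← hL]
      have h2 : (m : ℝ) ≤ s + h := by exact_mod_cast hm
      have h3 : (s : ℝ) ≤ C / 2 * L := by
        have h4 : 2 * s / C ≤ L := by linarith
        rw [div_le_iff₀ hC] at h4
        linarith
      nlinarith
    · rw [scale_eq _ M hM, hg2] at hm2
      have h2 : (1 - δ / 2) * (√(2 * vr q f * m * Real.log (Real.log m)) / M) * M =
          (1 - δ / 2) * √(2 * vr q f * m * Real.log (Real.log m)) := by field_simp
      have h3 : σ * ((∑ i ∈ range m, f (z * p ^ n / q ^ i % q) - m * mn q f) / M) * M = σ * dvn q f (z * p ^ n) m := by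
        unfold dvn
        field_simp
      have h4 := mul_le_mul_of_nonneg_right hm2 hM.le
      rw [h2, h3] at h4
      refine le_trans ?_ h4
      apply mul_le_mul_of_nonneg_right _ (Real.sqrt_nonneg _)
      linarith
  exact_mod_cast card_le_card hsub

end Pool.Agent.H46.DG
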