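import Pool.Agent.H46.DG.Wk

/-!
# Upper half of the law of the iterated logarithm for sums of independent values
-/

set_option autoImplicit false

namespace Pool.Agent.H46.DG

open Finset Filter Pool.Agent.H46.SW

variable {R : Type} [Fintype R]

lemma rpow_log_neg (c : ℝ) (l : ℕ) (hl : 1 ≤ l) : Real.exp (-(c * Real.log l)) = (l : ℝ) ^ (-c) := by
  have : (0 : ℝ) < l := by exact_mod_cast hl
  rw [Real.rpow_def_of_pos this]
  congr 1
  ring

/-- one level -/
lemma level {f : R → ℝ} {v : ℝ} (h : Cen f v) (δ κ : ℝ) (hδ : 0 < δ) (hδ1 : δ ≤ 1) (hκ : 0 < κ) : ∃ l₁ : ℕ, ∀ k l : ℕ, l₁ ≤ l → 1 ≤ l →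
    nq k (fun e : Fin k → R => ∃ j ≤ ⌊Real.exp (κ * l)⌋₊, yl δ l * √(v * Real.exp (κ * l)) ≤ |wf f e j|) ≤
      (Fintype.card R : ℝ) ^ k * (2 * (l : ℝ) ^ (-(1 + δ / 3))) := by
  have hv := h.pos
  obtain ⟨l₁, hl₁⟩ := ev_nums κ 0 (√v * (δ / 6)) δ hκ (by positivity) hδ hδ1
  refine ⟨l₁, fun k l hll hl => ?_⟩
  obtain ⟨hy0, hy1⟩ := hl₁ l hll
  have hl1 : (1 : ℝ) ≤ l := by exact_mod_cast hl
  have hlog := Real.log_nonneg hl1
  obtain ⟨E, hE⟩ : ∃ E : ℝ, E = Real.exp (κ * l) := ⟨_, rfl⟩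
  have hE0 : 0 < E := by rw [hE]; positivity
  rw [← hE]
  obtain ⟨n, hn⟩ : ∃ n : ℕ, n = ⌊E⌋₊ := ⟨_, rfl⟩
  rw [← hn]
  have hnE : (n : ℝ) ≤ E := by rw [hn]; exact Nat.floor_le hE0.le
  have hsq : 0 < √(v * E) := Real.sqrt_pos.2 (by positivity)
  obtain ⟨t, ht⟩ : ∃ t : ℝ, t = yl δ l / √(v * E) := ⟨_, rfl⟩
  have ht0 : 0 ≤ t := by rw [ht]; positivity
  have ht6 : t ≤ δ / 6 := by
    rw [ht, div_le_iff₀ hsq, Real.sqrt_mul hv.le]
    have h1 : √(Real.exp (κ * (l - 1)) / 2) ≤ √E := by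
      apply Real.sqrt_le_sqrt
      have h2 : Real.exp (κ * (l - 1)) ≤ E := by
        rw [hE]
        apply Real.exp_le_exp.2
        nlinarith
      have := Real.exp_pos (κ * ((l : ℝ) - 1))
      linarith
    have h2 := mul_le_mul_of_nonneg_left h1 (show 0 ≤ √v * (δ / 6) by positivity)
    linarith
  have h1 := max_both h t ht0 (by linarith) n k (yl δ l * √(v * E))
  refine h1.trans ?_
  have e1 : t * (yl δ l * √(v * E)) = yl δ l ^ 2 := by
    rw [ht]
    field_simp
  have e2 : t ^ 2 * (v * E) = yl δ l ^ 2 := by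
    rw [ht, div_pow, Real.sq_sqrt (by positivity)]
    field_simp
  have h2 : Real.exp (-(t * (yl δ l * √(v * E))) + n * (t ^ 2 * v * (1 + t) / 2)) ≤ (l : ℝ) ^ (-(1 + δ / 3)) := by
    rw [← rpow_log_neg _ l hl]
    apply Real.exp_le_exp.2
    rw [e1]
    have h3 : n * (t ^ 2 * v * (1 + t) / 2) ≤ yl δ l ^ 2 * (1 + t) / 2 := by
      rw [← e2]
      have h4 := mul_le_mul_of_nonneg_right hnE (show 0 ≤ t ^ 2 * v * (1 + t) / 2 by positivity)
      linarith
    have h4 : yl δ l ^ 2 * (1 + t) / 2 ≤ yl δ l ^ 2 * (1 + δ / 6) / 2 := by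
      have := mul_le_mul_of_nonneg_left (show 1 + t ≤ 1 + δ / 6 by linarith) (sq_nonneg (yl δ l))
      linarith
    have h5 := yl_sq δ l hl
    have h6 : (1 + δ / 3) * Real.log l ≤ yl δ l ^ 2 - yl δ l ^ 2 * (1 + δ / 6) / 2 := by
      rw [h5]
      have h70 : 1 ≤ (1 + δ / 3) * (1 - δ / 6) := by nlinarith
      have h7 : (1 + δ / 3) ≤ (1 + δ / 3) ^ 2 * (1 - δ / 6) := by
        have := mul_le_mul_of_nonneg_left h70 (show 0 ≤ 1 + δ / 3 by positivity)
        linarith
      have h8 := mul_le_mul_of_nonneg_right h7 hlog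
      linarith
    linarith
  have h3 : (0 : ℝ) ≤ (Fintype.card R : ℝ) ^ k := by positivity
  have := mul_le_mul_of_nonneg_left h2 (show (0 : ℝ) ≤ (Fintype.card R : ℝ) ^ k * 2 by positivity)
  linarith

/-- **upper half** -/
theorem mod_up {f : R → ℝ} {v : ℝ} (h : Cen f v) (η δ : ℝ) (hη : 0 < η) (hδ : 0 < δ) (hδ1 : δ ≤ 1) : ∃ j₀ : ℕ, 3 ≤ j₀ ∧ ∀ k : ℕ,
    nq k (fun e : Fin k → R => ∃ j ≤ k, j₀ ≤ j ∧ (1 + δ) * √(2 * (v * j) * Real.log (Real.log j)) < |wf f e j|) ≤
      η * (Fintype.card R : ℝ) ^ k := by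
  have hv := h.pos
  obtain ⟨κ, hκ⟩ : ∃ κ : ℝ, κ = δ / 12 := ⟨_, rfl⟩
  have hκ0 : 0 < κ := by rw [hκ]; positivity
  have hκ1 : κ ≤ 1 / 12 := by rw [hκ]; linarith
  obtain ⟨l₁, hl₁⟩ := level h δ κ hδ hδ1 hκ0
  obtain ⟨l₂, hl₂⟩ := tail_sum δ (η / 2) hδ (by positivity)
  obtain ⟨l₀, hl₀⟩ : ∃ l₀ : ℕ, l₀ = l₁ + l₂ := ⟨_, rfl⟩
  -- conditions for large `j`
  obtain ⟨N₁, hN₁3, hN₁⟩ := ev_loglog (6 / δ * Real.log (2 / κ) + κ * (l₀ + 2) + 1 + 6 / δ * |Real.log (2 / κ)|)
  refine ⟨N₁, hN₁3, fun k => ?_⟩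
  have hT := nq_biUnion (k := k) ((range (⌊Real.log k / κ⌋₊ + 2)).filter fun l => l₀ ≤ l ∧ 1 ≤ l)
    (P := fun e : Fin k → R => ∃ j ≤ k, N₁ ≤ j ∧ (1 + δ) * √(2 * (v * j) * Real.log (Real.log j)) < |wf f e j|)
    (fun l e => ∃ j ≤ ⌊Real.exp (κ * l)⌋₊, yl δ l * √(v * Real.exp (κ * l)) ≤ |wf f e j|) (by
      rintro e ⟨j, hjk, hj, h⟩
      have hj3 : 3 ≤ j := hN₁3.trans hj
      have hj0 : (0 : ℝ) < j := by exact_mod_cast (show 0 < j by omega)
      have hj1 : (1 : ℝ) ≤ j := by exact_mod_cast (show 1 ≤ j by omega)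
      obtain ⟨g1, g2⟩ := hN₁ j (by exact_mod_cast hj)
      obtain ⟨l, hl⟩ : ∃ l : ℕ, l = ⌊Real.log j / κ⌋₊ + 1 := ⟨_, rfl⟩
      have hlogj : 0 ≤ Real.log j := Real.log_nonneg hj1
      have hq : 0 ≤ Real.log j / κ := by positivity
      have hl1 : (l : ℝ) ≤ Real.log j / κ + 1 := by rw [hl]; push_cast; linarith [Nat.floor_le hq]
      have hl2 : Real.log j / κ < l := by rw [hl]; push_cast; exact Nat.lt_floor_add_one _
      have hl3 : Real.log j < κ * l := by rw [div_lt_iff₀ hκ0] at hl2; linarith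
      have hl4 : κ * l ≤ Real.log j + κ := by
        have := mul_le_mul_of_nonneg_left hl1 hκ0.le
        rw [mul_add, mul_div_cancel₀ _ hκ0.ne'] at this
        linarith
      have a0 : 0 ≤ |Real.log (2 / κ)| + Real.log (2 / κ) := by linarith [neg_abs_le (Real.log (2 / κ))]
      have a1 : 0 ≤ 6 / δ * (|Real.log (2 / κ)| + Real.log (2 / κ)) := by positivity
      have hll : l₀ + 1 ≤ l := by
        have h1 : κ * (l₀ + 2) ≤ Real.log j := by linarith
        have h2 : κ * (l₀ + 2 : ℝ) < κ * l := by linarith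
        have h3 : (l₀ : ℝ) + 2 < l := lt_of_mul_lt_mul_left h2 hκ0.le
        have h4 : ((l₀ + 2 : ℕ) : ℝ) < l := by push_cast; exact h3
        have := Nat.cast_lt.1 h4
        omega
      refine ⟨l, ?_, j, ?_, ?_⟩
      · rw [mem_filter, mem_range]
        refine ⟨?_, by omega, by omega⟩
        have h1 : ⌊Real.log j / κ⌋₊ ≤ ⌊Real.log k / κ⌋₊ := by
          apply Nat.floor_mono
          apply div_le_div_of_nonneg_right _ hκ0.le
          exact Real.log_le_log hj0 (by exact_mod_cast hjk)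
        omega
      · apply Nat.le_floor
        rw [← Real.exp_log hj0]
        exact Real.exp_le_exp.2 hl3.le
      · refine le_trans ?_ h.le
        have hW : v * Real.exp (κ * l) ≤ (1 + δ / 6) * (v * j) := by
          have hW0 : Real.exp (κ * l) ≤ (1 + δ / 6) * j := by
            calc Real.exp (κ * l) ≤ Real.exp (Real.log j + κ) := Real.exp_le_exp.2 hl4
              _ = j * Real.exp κ := by rw [Real.exp_add, Real.exp_log hj0]
              _ ≤ j * (1 + δ / 6) := by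
                  apply mul_le_mul_of_nonneg_left _ hj0.le
                  have h1 := Real.exp_bound_div_one_sub_of_interval hκ0.le (by linarith : κ < 1)
                  refine h1.trans ?_
                  rw [div_le_iff₀ (by linarith)]
                  rw [hκ]
                  nlinarith
              _ = _ := by ring
          have := mul_le_mul_of_nonneg_left hW0 hv.le
          linarith
        have hlogl : Real.log l ≤ (1 + δ / 6) * Real.log (Real.log j) := by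
          have h1 : (l : ℝ) ≤ Real.log j * (2 / κ) := by
            have h2 : 1 ≤ Real.log j / κ := by
              rw [le_div_iff₀ hκ0]
              linarith [show 0 ≤ κ * (l₀ + 2) by positivity]
            calc (l : ℝ) ≤ Real.log j / κ + Real.log j / κ := by linarith
              _ = _ := by ring
          have hlp : (0 : ℝ) < l := by exact_mod_cast (show 0 < l by omega)
          have hlj : 0 < Real.log j := by linarith [show 0 ≤ κ * (l₀ + 2) by positivity]
          have h2 : Real.log l ≤ Real.log (Real.log j) + Real.log (2 / κ) := by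
            rw [← Real.log_mul hlj.ne' (by positivity)]
            exact Real.log_le_log hlp h1
          have h3 : Real.log (2 / κ) ≤ δ / 6 * Real.log (Real.log j) := by
            have h4 : 6 / δ * Real.log (2 / κ) ≤ Real.log (Real.log j) := by
              have : 0 ≤ 6 / δ * |Real.log (2 / κ)| := by positivity
              linarith [show 0 ≤ κ * (l₀ + 2) by positivity]
            have h5 := mul_le_mul_of_nonneg_left h4 (show 0 ≤ δ / 6 by positivity)
            have h6 : δ / 6 * (6 / δ * Real.log (2 / κ)) = Real.log (2 / κ) := by field_simp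
            linarith
          linarith
        exact up_final δ (v * j) (v * Real.exp (κ * l)) (Real.log l) (Real.log (Real.log j)) l hδ hδ1 (by positivity) hW (by positivity)
          (by omega) rfl hlogl (by
            have : 0 ≤ κ * (l₀ + 2) := by positivity
            linarith))
  refine hT.trans ?_
  have h1 : ∑ l ∈ (range (⌊Real.log k / κ⌋₊ + 2)).filter (fun l => l₀ ≤ l ∧ 1 ≤ l),
      nq k (fun e : Fin k → R => ∃ j ≤ ⌊Real.exp (κ * l)⌋₊, yl δ l * √(v * Real.exp (κ * l)) ≤ |wf f e j|) ≤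
      ∑ l ∈ (range (⌊Real.log k / κ⌋₊ + 2)).filter (fun l => l₀ ≤ l ∧ 1 ≤ l), (Fintype.card R : ℝ) ^ k * (2 * (l : ℝ) ^ (-(1 + δ / 3))) := by
    apply sum_le_sum
    intro l hl
    rw [mem_filter] at hl
    exact hl₁ k l (by omega) hl.2.2
  refine h1.trans ?_
  rw [← mul_sum, ← mul_sum]
  have h2 := hl₂ ((range (⌊Real.log k / κ⌋₊ + 2)).filter (fun l => l₀ ≤ l ∧ 1 ≤ l)) (by
    intro l hl
    rw [mem_filter] at hl
    omega)
  have h3 : (0 : ℝ) ≤ (Fintype.card R : ℝ) ^ k := by positivity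
  have h4 := mul_le_mul_of_nonneg_left h2 (show (0 : ℝ) ≤ (Fintype.card R : ℝ) ^ k * 2 by positivity)
  linarith

end Pool.Agent.H46.DG
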