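import Pool.Graph.R_pool_sql_team_seeded_c8625f6e.K4H16.CG.IL9
import Pool.Agent.H46.SW.NumU

/-!
# Sums of independent values: maximal inequality
-/

set_option autoImplicit false

namespace Pool.Agent.H46.DG

open Finset

variable {R : Type} [Fintype R]

/-- the partial sums -/
def wf {k : ℕ} (f : R → ℝ) (e : Fin k → R) (j : ℕ) : ℝ := ∑ i : Fin k, if (i : ℕ) < j then f (e i) else 0

omit [Fintype R] in
lemma wf_zero {k : ℕ} (f : R → ℝ) (e : Fin k → R) : wf f e 0 = 0 := by simp [wf]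

omit [Fintype R] in
lemma wf_cons {k : ℕ} (f : R → ℝ) (b : R) (e : Fin k → R) (j : ℕ) :
    wf f (Fin.cons b e : Fin (k + 1) → R) (j + 1) = f b + wf f e j := by
  unfold wf
  rw [Fin.sum_univ_succ]
  simp

omit [Fintype R] in
lemma wf_neg {k : ℕ} (f : R → ℝ) (e : Fin k → R) (j : ℕ) : wf (fun b => -f b) e j = -wf f e j := by
  unfold wf
  rw [← sum_neg_distrib]
  apply sum_congr rfl
  intro i _
  split_ifs <;> simp

open Classical in
/-- the number of the words with a property -/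
noncomputable def nq (k : ℕ) (P : (Fin k → R) → Prop) : ℝ := ((univ.filter P).card : ℝ)

lemma nq_nonneg (k : ℕ) (P : (Fin k → R) → Prop) : 0 ≤ nq k P := by unfold nq; positivity

lemma nq_mono {k : ℕ} {P Q : (Fin k → R) → Prop} (h : ∀ e, P e → Q e) : nq k P ≤ nq k Q := by
  classical
  unfold nq
  exact_mod_cast card_le_card (monotone_filter_right univ (fun e _ => h e))

lemma nq_congr {k : ℕ} {P Q : (Fin k → R) → Prop} (h : ∀ e, P e ↔ Q e) : nq k P = nq k Q :=
  le_antisymm (nq_mono fun e => (h e).1) (nq_mono fun e => (h e).2)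

lemma nq_eq_card {k : ℕ} {P Q : (Fin k → R) → Prop} [DecidablePred Q] (h : ∀ e, P e ↔ Q e) :
    nq k P = ((univ.filter Q).card : ℝ) := by
  classical
  unfold nq
  rw [Nat.cast_inj]
  apply congrArg
  ext e
  simp only [mem_filter, h e]

lemma nq_le (k : ℕ) (P : (Fin k → R) → Prop) : nq k P ≤ (Fintype.card R : ℝ) ^ k := by
  classical
  unfold nq
  have := card_filter_le (univ : Finset (Fin k → R)) P
  rw [card_univ, Fintype.card_fun, Fintype.card_fin] at this
  exact_mod_cast this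

lemma nq_or {k : ℕ} {P Q S : (Fin k → R) → Prop} (h : ∀ e, P e → Q e ∨ S e) : nq k P ≤ nq k Q + nq k S := by
  classical
  unfold nq
  have hsub : univ.filter P ⊆ univ.filter Q ∪ univ.filter S := by
    intro e he
    rw [mem_filter] at he
    rw [mem_union, mem_filter, mem_filter]
    rcases h e he.2 with h | h
    · exact Or.inl ⟨mem_univ _, h⟩
    · exact Or.inr ⟨mem_univ _, h⟩
  exact_mod_cast (card_le_card hsub).trans (card_union_le _ _)

lemma nq_biUnion {k : ℕ} {ι : Type} (T : Finset ι) {P : (Fin k → R) → Prop} (Q : ι → (Fin k → R) → Prop)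
    (h : ∀ e, P e → ∃ i ∈ T, Q i e) : nq k P ≤ ∑ i ∈ T, nq k (Q i) := by
  classical
  unfold nq
  have hsub : univ.filter P ⊆ T.biUnion fun i => univ.filter (Q i) := by
    intro e he
    rw [mem_filter] at he
    obtain ⟨i, hi, hQ⟩ := h e he.2
    rw [mem_biUnion]
    exact ⟨i, hi, mem_filter.2 ⟨mem_univ _, hQ⟩⟩
  exact_mod_cast (card_le_card hsub).trans card_biUnion_le

lemma nq_empty {k : ℕ} {P : (Fin k → R) → Prop} (h : ∀ e, ¬ P e) : nq k P = 0 := by
  classical
  unfold nq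
  rw [filter_false_of_mem (fun e _ => h e)]
  simp

lemma nq_cons {k : ℕ} (P : (Fin (k + 1) → R) → Prop) :
    nq (k + 1) P = ∑ b : R, nq k (fun e => P (Fin.cons b e)) := by
  classical
  unfold nq
  rw [card_filter]
  rw [← (Fin.consEquiv (fun _ : Fin (k + 1) => R)).sum_comp]
  rw [Fintype.sum_prod_type]
  simp only [Fin.consEquiv, Equiv.coe_fn_mk]
  push_cast
  apply sum_congr rfl
  intro b _
  rw [card_filter]
  push_cast
  rfl

/-- the data: a centred bounded function with variance `v` -/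
structure Cen (f : R → ℝ) (v : ℝ) : Prop where
  bd : ∀ b, |f b| ≤ 1
  mean : ∑ b, f b = 0
  var : ∑ b, f b ^ 2 = (Fintype.card R : ℝ) * v
  pos : 0 < v

namespace Cen

variable {f : R → ℝ} {v : ℝ}

lemma neg (h : Cen f v) : Cen (fun b => -f b) v :=
  ⟨fun b => by rw [abs_neg]; exact h.bd b, by rw [sum_neg_distrib, h.mean, neg_zero], by simp only [neg_sq]; exact h.var, h.pos⟩

lemma le_one [Nonempty R] (h : Cen f v) : v ≤ 1 := by
  have h1 : ∑ b, f b ^ 2 ≤ ∑ _b : R, (1 : ℝ) := by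
    apply sum_le_sum
    intro b _
    rw [← sq_abs]
    have := h.bd b
    have := abs_nonneg (f b)
    nlinarith
  rw [h.var, sum_const, card_univ, nsmul_eq_mul, mul_one] at h1
  have hc : (0 : ℝ) < (Fintype.card R : ℝ) := by exact_mod_cast Fintype.card_pos
  by_contra hcon
  push Not at hcon
  nlinarith

lemma mgf (h : Cen f v) (t : ℝ) (ht : 0 ≤ t) (ht1 : t ≤ 1) :
    ∑ b, Real.exp (t * f b) ≤ (Fintype.card R : ℝ) * Real.exp (t ^ 2 * v * (1 + t) / 2) := by
  have h1 : ∀ b, Real.exp (t * f b) ≤ 1 + t * f b + t ^ 2 * (1 + t) / 2 * f b ^ 2 := by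
    intro b
    have hb := h.bd b
    obtain ⟨x, hx⟩ : ∃ x : ℝ, x = t * f b := ⟨_, rfl⟩
    have hxa : |x| ≤ t := by
      rw [hx, abs_mul, abs_of_nonneg ht]
      nlinarith [abs_nonneg (f b)]
    have hx1 : |x| ≤ 1 := hxa.trans ht1
    have h2 := Real.exp_bound hx1 (n := 3) (by norm_num)
    rw [sum_range_succ, sum_range_succ, sum_range_one] at h2
    norm_num [Nat.factorial] at h2
    have h3 := (abs_le.1 h2).2
    have h4 : |x| ^ 3 ≤ t * x ^ 2 := by
      have : |x| ^ 3 = |x| * x ^ 2 := by rw [pow_succ', sq_abs]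
      rw [this]
      exact mul_le_mul_of_nonneg_right hxa (sq_nonneg _)
    have h5 : t ^ 2 * (1 + t) / 2 * f b ^ 2 = (1 + t) / 2 * x ^ 2 := by rw [hx]; ring
    rw [← hx, h5]
    have h6 : 0 ≤ t * x ^ 2 := by positivity
    nlinarith
  refine (sum_le_sum fun b _ => h1 b).trans ?_
  rw [sum_add_distrib, sum_add_distrib, ← mul_sum, ← mul_sum, h.mean, h.var, sum_const, card_univ, nsmul_eq_mul, mul_one, mul_zero,
    add_zero]
  have hc : (0 : ℝ) ≤ (Fintype.card R : ℝ) := Nat.cast_nonneg _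
  have h2 := Real.add_one_le_exp (t ^ 2 * v * (1 + t) / 2)
  calc (Fintype.card R : ℝ) + t ^ 2 * (1 + t) / 2 * ((Fintype.card R : ℝ) * v) = (Fintype.card R : ℝ) * (t ^ 2 * v * (1 + t) / 2 + 1) := by ring
    _ ≤ _ := mul_le_mul_of_nonneg_left h2 hc

end Cen

/-- **the maximal inequality** -/
theorem max_ineq {f : R → ℝ} {v : ℝ} (h : Cen f v) (t : ℝ) (ht : 0 ≤ t) (ht1 : t ≤ 1) (n : ℕ) : ∀ (k : ℕ) (a : ℝ),
    nq k (fun e : Fin k → R => ∃ j ≤ n, a ≤ wf f e j) ≤ (Fintype.card R : ℝ) ^ k * Real.exp (-(t * a) + n * (t ^ 2 * v * (1 + t) / 2)) := by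
  have hv := h.pos
  have hφ : 0 ≤ t ^ 2 * v * (1 + t) / 2 := by positivity
  induction n with
  | zero =>
    intro k a
    rcases le_or_gt a 0 with ha | ha
    · refine (nq_le _ _).trans ?_
      have h2 : 1 ≤ Real.exp (-(t * a) + ((0 : ℕ) : ℝ) * (t ^ 2 * v * (1 + t) / 2)) := by
        apply Real.one_le_exp
        push_cast
        nlinarith
      have h3 : (0 : ℝ) ≤ (Fintype.card R : ℝ) ^ k := by positivity
      nlinarith
    · rw [nq_empty]
      · positivity
      · rintro e ⟨j, hj, h⟩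
        rw [Nat.le_zero.1 hj, wf_zero] at h
        linarith
  | succ n ih =>
    intro k a
    rcases le_or_gt a 0 with ha | ha
    · refine (nq_le _ _).trans ?_
      have h2 : 1 ≤ Real.exp (-(t * a) + ((n + 1 : ℕ) : ℝ) * (t ^ 2 * v * (1 + t) / 2)) := by
        apply Real.one_le_exp
        have : 0 ≤ ((n + 1 : ℕ) : ℝ) * (t ^ 2 * v * (1 + t) / 2) := by positivity
        nlinarith
      have h3 : (0 : ℝ) ≤ (Fintype.card R : ℝ) ^ k := by positivity
      nlinarith
    · rcases Nat.eq_zero_or_pos k with rfl | hk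
      · rw [nq_empty]
        · positivity
        · rintro e ⟨j, hj, h⟩
          have : wf f e j = 0 := by simp [wf]
          rw [this] at h
          linarith
      obtain ⟨k, rfl⟩ : ∃ k', k = k' + 1 := ⟨k - 1, by omega⟩
      rw [nq_cons]
      have key : ∀ b : R, ∀ e : Fin k → R, (∃ j ≤ n + 1, a ≤ wf f (Fin.cons b e : Fin (k + 1) → R) j) ↔
          ∃ j ≤ n, a - f b ≤ wf f e j := by
        intro b e
        constructor
        · rintro ⟨j, hj, h⟩
          rcases j with _ | j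
          · rw [wf_zero] at h
            linarith
          · rw [wf_cons] at h
            exact ⟨j, by omega, by linarith⟩
        · rintro ⟨j, hj, h⟩
          exact ⟨j + 1, by omega, by rw [wf_cons]; linarith⟩
      have h1 : ∀ b ∈ (univ : Finset R), nq k (fun e : Fin k → R => ∃ j ≤ n + 1, a ≤ wf f (Fin.cons b e : Fin (k + 1) → R) j) ≤
          (Fintype.card R : ℝ) ^ k * Real.exp (-(t * a) + n * (t ^ 2 * v * (1 + t) / 2)) * Real.exp (t * f b) := by
        intro b _
        rw [nq_congr (key b)]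
        refine (ih k (a - f b)).trans (le_of_eq ?_)
        have e0 : Real.exp (-(t * (a - f b)) + n * (t ^ 2 * v * (1 + t) / 2)) =
            Real.exp (-(t * a) + n * (t ^ 2 * v * (1 + t) / 2)) * Real.exp (t * f b) := by
          rw [← Real.exp_add]
          congr 1
          ring
        rw [e0]
        ring
      refine (sum_le_sum h1).trans ?_
      rw [← mul_sum]
      have h2 := mul_le_mul_of_nonneg_left (h.mgf t ht ht1) (show 0 ≤ (Fintype.card R : ℝ) ^ k * Real.exp (-(t * a) + n * (t ^ 2 * v * (1 + t) / 2)) by positivity)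
      refine h2.trans (le_of_eq ?_)
      push_cast
      have f3 : Real.exp (-(t * a) + (n + 1) * (t ^ 2 * v * (1 + t) / 2)) =
          Real.exp (-(t * a) + n * (t ^ 2 * v * (1 + t) / 2)) * Real.exp (t ^ 2 * v * (1 + t) / 2) := by
        rw [← Real.exp_add]
        congr 1
        ring
      rw [f3, pow_succ]
      ring

/-- both signs -/
theorem max_both {f : R → ℝ} {v : ℝ} (h : Cen f v) (t : ℝ) (ht : 0 ≤ t) (ht1 : t ≤ 1) (n k : ℕ) (a : ℝ) :
    nq k (fun e : Fin k → R => ∃ j ≤ n, a ≤ |wf f e j|) ≤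
      (Fintype.card R : ℝ) ^ k * (2 * Real.exp (-(t * a) + n * (t ^ 2 * v * (1 + t) / 2))) := by
  have h1 := max_ineq h t ht ht1 n k a
  have h2 := max_ineq h.neg t ht ht1 n k a
  have h3 : nq k (fun e : Fin k → R => ∃ j ≤ n, a ≤ |wf f e j|) ≤ nq k (fun e : Fin k → R => ∃ j ≤ n, a ≤ wf f e j) +
      nq k (fun e : Fin k → R => ∃ j ≤ n, a ≤ wf (fun b => -f b) e j) := by
    apply nq_or
    rintro e ⟨j, hj, h⟩
    rcases abs_choice (wf f e j) with h3 | h3
    · exact Or.inl ⟨j, hj, by rw [h3] at h; exact h⟩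
    · exact Or.inr ⟨j, hj, by rw [wf_neg, ← h3]; exact h⟩
  linarith

/-- crude form -/
theorem max_crude [Nonempty R] {f : R → ℝ} {v : ℝ} (h : Cen f v) (n k : ℕ) (hn : 1 ≤ n) (a : ℝ) (ha : 0 ≤ a) (ha2 : a ≤ 2 * n) :
    nq k (fun e : Fin k → R => ∃ j ≤ n, a ≤ |wf f e j|) ≤ (Fintype.card R : ℝ) ^ k * (2 * Real.exp (-(a ^ 2 / (4 * n)))) := by
  have hn0 : (0 : ℝ) < n := by exact_mod_cast hn
  have h1 := max_both h (a / (2 * n)) (by positivity) (by rw [div_le_one (by positivity)]; exact ha2) n k a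
  refine h1.trans ?_
  have hv1 := h.le_one
  have hv0 := h.pos
  have ht1 : a / (2 * n) ≤ 1 := by rw [div_le_one (by positivity)]; exact ha2
  have ht0 : 0 ≤ a / (2 * n) := by positivity
  have h2 : Real.exp (-(a / (2 * n) * a) + n * ((a / (2 * n)) ^ 2 * v * (1 + a / (2 * n)) / 2)) ≤ Real.exp (-(a ^ 2 / (4 * n))) := by
    apply Real.exp_le_exp.2
    have e1 : n * ((a / (2 * n)) ^ 2 * v * (1 + a / (2 * n)) / 2) ≤ n * (a / (2 * n)) ^ 2 := by
      apply mul_le_mul_of_nonneg_left _ hn0.le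
      have h3 : v * (1 + a / (2 * n)) / 2 ≤ 1 := by nlinarith
      have h4 := mul_le_mul_of_nonneg_left h3 (sq_nonneg (a / (2 * (n : ℝ))))
      linarith
    have e2 : n * (a / (2 * n)) ^ 2 = a ^ 2 / (4 * n) := by field_simp; ring
    have e3 : a / (2 * n) * a = 2 * (a ^ 2 / (4 * n)) := by field_simp; ring
    linarith
  have h3 : (0 : ℝ) ≤ (Fintype.card R : ℝ) ^ k := by positivity
  have := mul_le_mul_of_nonneg_left h2 (show (0 : ℝ) ≤ (Fintype.card R : ℝ) ^ k * 2 by positivity)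
  linarith

end Pool.Agent.H46.DG
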